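import Pool.Agent.H31.GUF.Targets
import Pool.Agent.H91.LF.Basic

/-!
Row NP of part F of the project GU (`MP_c59857_nt`): the pairs of the problem have no obstruction
on progressions.
-/

set_option autoImplicit false

open Finset Filter Topology

namespace Pool.Agent.H34.GUF

open Pool.Agent.H91.LF (lz lz_natCast)
open Pool.Agent.H24.MR (lam)
open Pool.Agent.H31.DP Pool.Agent.H31.GUF

theorem abs_Fo {r : ℕ} (β : Fin r → ℤ) (δ : Fin r → ℕ) (n : ℤ) : |Fo β δ n| ≤ 1 := by
  unfold Fo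
  rw [Finset.abs_prod]
  refine Finset.prod_le_one (fun i _ => abs_nonneg _) fun i _ => ?_
  rw [abs_neg_one_pow]

/-- comparison of the two products -/
theorem Fo_eq {r l : ℕ} (β : Fin r → ℤ) (δ : Fin r → ℕ) (b : ℕ) (h' : Fin r → ℕ)
    (hh : ∀ i, (h' i : ℤ) = β i + b)
    (e : Fin l ≃ {i // i ∈ (Finset.univ : Finset (Fin r)).filter (fun i => Odd (δ i))})
    (m : ℕ) (hm : 1 ≤ m) :
    Fo β δ ((m + b : ℕ) : ℤ) = FF (fun j => h' (e j)) 1 (m : ℤ) := by
  unfold Fo FF
  have h1 : ∏ j : Fin l, lz ((m : ℤ) + ((1 : ℕ) : ℤ) * ((h' (e j) : ℕ) : ℤ)) =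
      ∏ i : {i // i ∈ (Finset.univ : Finset (Fin r)).filter (fun i => Odd (δ i))},
        lz ((m : ℤ) + ((h' i : ℕ) : ℤ)) := by
    rw [← Equiv.prod_comp e]
    refine Finset.prod_congr rfl fun j _ => ?_
    rw [Nat.cast_one, one_mul]
  rw [h1, Finset.prod_coe_sort ((Finset.univ : Finset (Fin r)).filter (fun i => Odd (δ i)))
    (fun i => lz ((m : ℤ) + ((h' i : ℕ) : ℤ)))]
  refine Finset.prod_congr rfl fun i _ => ?_
  have h2 : ((m : ℤ) + ((h' i : ℕ) : ℤ)) = ((m + h' i : ℕ) : ℤ) := by push_cast; ring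
  rw [h2, lz_natCast (by omega)]
  have h3 : (((m + b : ℕ) : ℤ) + β i).toNat = m + h' i := by
    have h4 : ((m + b : ℕ) : ℤ) + β i = ((m + h' i : ℕ) : ℤ) := by
      push_cast
      rw [hh i]
      ring
    rw [h4, Int.toNat_natCast]
  rw [h3]
  rfl

theorem mod_shift (q b n₀ m : ℕ) (hq : 1 ≤ q) :
    m + b ≡ n₀ [MOD q] ↔ m ≡ n₀ + (q - 1) * b [MOD q] := by
  obtain ⟨t, rfl⟩ : ∃ t, q = t + 1 := ⟨q - 1, by omega⟩
  rw [Nat.add_sub_cancel]
  have e : m + b + t * b = m + (t + 1) * b := by ring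
  have h0 : m + (t + 1) * b ≡ m [MOD t + 1] := by
    unfold Nat.ModEq
    rw [Nat.add_mul_mod_self_left]
  constructor
  · intro h
    have h1 := h.add_right (t * b)
    rw [e] at h1
    exact h0.symm.trans h1
  · intro h
    have h1 : m + b + t * b ≡ n₀ + t * b [MOD t + 1] := by
      rw [e]
      exact h0.trans h
    exact Nat.ModEq.add_right_cancel' _ h1

theorem noObs_of_AS {r l : ℕ} (β : Fin r → ℤ) (δ : Fin r → ℕ) (b : ℕ) (h' : Fin r → ℕ)
    (hh : ∀ i, (h' i : ℤ) = β i + b)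
    (e : Fin l ≃ {i // i ∈ (Finset.univ : Finset (Fin r)).filter (fun i => Odd (δ i))})
    (L N : ℕ) (hL : 0 < L) (hN : 2 * L * b ≤ N)
    (hAS : AS (fun j => h' (e j)) (2 * L ^ 2) (L * N)) : NoObs β δ L N := by
  intro q n₀ M hq1 hq2 hM
  have hL' : (0 : ℝ) < L := by exact_mod_cast hL
  have hbN : (b : ℝ) ≤ (N : ℝ) / (2 * L) := by
    rw [le_div_iff₀ (by positivity)]
    have : b * (2 * L) ≤ N := by
      refine le_trans (le_of_eq ?_) hN
      ring
    exact_mod_cast this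
  have hLL : L ≤ 2 * L ^ 2 := by
    have h1 : L * 1 ≤ L * L := Nat.mul_le_mul_left L hL
    have h2 : 2 * L ^ 2 = 2 * (L * L) := by ring
    omega
  have hhead : ∀ S : Finset ℕ, S.card ≤ b → |∑ n ∈ S, Fo β δ (n : ℤ)| ≤ b := by
    intro S hS
    calc |∑ n ∈ S, Fo β δ (n : ℤ)| ≤ ∑ n ∈ S, |Fo β δ (n : ℤ)| := Finset.abs_sum_le_sum_abs _ _
      _ ≤ ∑ _n ∈ S, (1 : ℝ) := Finset.sum_le_sum fun n _ => abs_Fo β δ _
      _ = S.card := by rw [Finset.sum_const, nsmul_eq_mul, mul_one]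
      _ ≤ b := by exact_mod_cast hS
  have hNL : (N : ℝ) / L = N / (2 * L) + N / (2 * L) := by
    field_simp
    ring
  have hN0 : (0 : ℝ) ≤ (N : ℝ) / (2 * L) := by positivity
  rcases Nat.lt_or_ge M b with hMb | hMb
  · refine (hhead _ ?_).trans ?_
    · refine (Finset.card_filter_le _ _).trans ?_
      rw [Nat.card_Icc]
      omega
    · rw [hNL]
      linarith
  · have hsplit : (Finset.Icc 1 M).filter (fun n : ℕ => n ≡ n₀ [MOD q]) =
        (Finset.Icc 1 b).filter (fun n : ℕ => n ≡ n₀ [MOD q]) ∪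
        ((Finset.Icc 1 (M - b)).filter
          (fun n : ℕ => n ≡ n₀ + (q - 1) * b [MOD q])).map (addRightEmbedding b) := by
      ext n
      simp only [Finset.mem_union, Finset.mem_filter, Finset.mem_Icc, Finset.mem_map,
        addRightEmbedding_apply]
      constructor
      · rintro ⟨⟨h1, h2⟩, h3⟩
        rcases Nat.lt_or_ge b n with h4 | h4
        · right
          refine ⟨n - b, ⟨⟨by omega, by omega⟩, ?_⟩, by omega⟩
          rw [← mod_shift q b n₀ (n - b) hq1, Nat.sub_add_cancel h4.le]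
          exact h3
        · left
          exact ⟨⟨h1, h4⟩, h3⟩
      · rintro (⟨⟨h1, h2⟩, h3⟩ | ⟨m, ⟨⟨h1, h2⟩, h3⟩, rfl⟩)
        · exact ⟨⟨h1, by omega⟩, h3⟩
        · exact ⟨⟨by omega, by omega⟩, (mod_shift q b n₀ m hq1).2 h3⟩
    have hdisj : Disjoint ((Finset.Icc 1 b).filter (fun n : ℕ => n ≡ n₀ [MOD q]))
        (((Finset.Icc 1 (M - b)).filter
          (fun n : ℕ => n ≡ n₀ + (q - 1) * b [MOD q])).map (addRightEmbedding b)) := by
      rw [Finset.disjoint_left]
      intro n hn hn'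
      rw [Finset.mem_filter, Finset.mem_Icc] at hn
      obtain ⟨m, hm, rfl⟩ := Finset.mem_map.1 hn'
      rw [Finset.mem_filter, Finset.mem_Icc] at hm
      rw [addRightEmbedding_apply] at hn
      omega
    rw [hsplit, Finset.sum_union hdisj, Finset.sum_map]
    refine (abs_add_le _ _).trans ?_
    rw [hNL]
    refine add_le_add ((hhead _ ?_).trans hbN) ?_
    · refine (Finset.card_filter_le _ _).trans ?_
      rw [Nat.card_Icc]
      omega
    · have h1 := hAS q (n₀ + (q - 1) * b) (M - b) hq1 (hq2.trans hLL) (by omega)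
      have h2 : ((L * N : ℕ) : ℝ) / ((2 * L ^ 2 : ℕ) : ℝ) = N / (2 * L) := by
        push_cast
        field_simp
      rw [h2] at h1
      refine le_trans (le_of_eq ?_) h1
      congr 1
      refine Finset.sum_congr rfl fun m hm => ?_
      rw [Finset.mem_filter, Finset.mem_Icc] at hm
      rw [addRightEmbedding_apply]
      exact Fo_eq β δ b h' hh e m hm.1.1

theorem pf_NP (hAP : F_AP) : F_NP := by
  classical
  intro r β δ L ρ hP hL hρ
  obtain ⟨-, hβ, hcard⟩ := hP
  set O := (Finset.univ : Finset (Fin r)).filter (fun i => Odd (δ i)) with hO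
  -- the natural shifts
  set b : ℕ := ∑ i, (β i).natAbs with hb
  have hb1 : ∀ i, 0 ≤ β i + b := by
    intro i
    have h1 : (β i).natAbs ≤ b := Finset.single_le_sum (f := fun i => (β i).natAbs)
      (fun _ _ => Nat.zero_le _) (Finset.mem_univ i)
    have h2 : ((β i).natAbs : ℤ) ≤ b := by exact_mod_cast h1
    rw [Int.natCast_natAbs] at h2
    have := neg_abs_le (β i)
    linarith
  set h' : Fin r → ℕ := fun i => (β i + b).toNat with hh'
  have hh : ∀ i, (h' i : ℤ) = β i + b := fun i => Int.toNat_of_nonneg (hb1 i)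
  have hinj : Function.Injective h' := by
    intro i j hij
    have h1 : (h' i : ℤ) = h' j := by rw [hij]
    rw [hh, hh] at h1
    exact hβ (add_right_cancel h1)
  obtain ⟨l, hl, hOc⟩ : ∃ l : ℕ, (l = 1 ∨ l = 2) ∧ O.card = l := by
    rcases hcard with h1 | h1
    · exact ⟨1, Or.inl rfl, h1⟩
    · exact ⟨2, Or.inr rfl, h1⟩
  set e : Fin l ≃ {i // i ∈ O} := (O.equivFinOfCardEq hOc).symm with he
  have hinj2 : Function.Injective (fun j : Fin l => h' (e j)) := by
    intro j j' hj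
    exact e.injective (Subtype.ext (hinj hj))
  have hL' : (0 : ℝ) < L := by exact_mod_cast hL
  obtain ⟨K₁, hK₁⟩ := hAP l (fun j => h' (e j)) (2 * L ^ 2) (ρ / (2 * L)) hl hinj2
    (by positivity) (by positivity)
  set K₂ : ℕ := 2 * L * b with hK₂
  set K : ℕ := max K₁ ⌈Real.exp (2 * K₂ / ρ)⌉₊ with hK
  refine ⟨K, fun x y hx hxy => ?_⟩
  have hK1 : K₁ ≤ K := le_max_left _ _
  have hK4 : Real.exp (2 * K₂ / ρ) ≤ K := (Nat.le_ceil _).trans
    (Nat.cast_le.2 (le_max_right _ _))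
  have hK0' : (0 : ℝ) < K := lt_of_lt_of_le (Real.exp_pos _) hK4
  have hx' : (0 : ℝ) < x := by exact_mod_cast hx
  have hlog2 : 2 * (K₂ : ℝ) / ρ ≤ Real.log ((y : ℝ) / x) := by
    have h1 : Real.log K ≤ Real.log ((y : ℝ) / x) := by
      apply Real.log_le_log hK0'
      rw [le_div_iff₀ hx']
      exact_mod_cast hxy
    refine le_trans ?_ h1
    rw [Real.le_log_iff_exp_le hK0']
    exact hK4
  have hbad := hK₁ (L * x) (L * y) (Nat.mul_pos hL hx) (by
    calc K₁ * (L * x) = L * (K₁ * x) := by ring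
      _ ≤ L * y := Nat.mul_le_mul_left L ((Nat.mul_le_mul_right x hK1).trans hxy))
  have hlog : Real.log (((L * y : ℕ) : ℝ) / ((L * x : ℕ) : ℝ)) = Real.log ((y : ℝ) / x) := by
    congr 1
    push_cast
    rw [mul_div_mul_left _ _ hL'.ne']
  rw [hlog] at hbad
  set A : Finset ℕ := (Finset.Icc x y).filter (fun N : ℕ => ¬ NoObs β δ L N) with hA
  rw [← Finset.sum_filter_add_sum_filter_not A (fun N => N < K₂)]
  have h1 : ∑ N ∈ A with N < K₂, (1 / (N : ℝ)) ≤ ρ / 2 * Real.log ((y : ℝ) / x) := by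
    calc ∑ N ∈ A with N < K₂, (1 / (N : ℝ)) ≤ ∑ N ∈ Finset.range K₂, (1 : ℝ) := by
          refine (Finset.sum_le_sum_of_subset_of_nonneg (t := Finset.range K₂) ?_
            (fun _ _ _ => by positivity)).trans (Finset.sum_le_sum fun N _ => ?_)
          · intro N hN
            rw [Finset.mem_filter] at hN
            exact Finset.mem_range.2 hN.2
          · rcases Nat.eq_zero_or_pos N with h0 | h0
            · rw [h0]
              norm_num
            · rw [div_le_one (by exact_mod_cast h0)]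
              exact_mod_cast h0
      _ = K₂ := by rw [Finset.sum_const, Finset.card_range, nsmul_eq_mul, mul_one]
      _ = ρ / 2 * (2 * (K₂ : ℝ) / ρ) := by field_simp
      _ ≤ _ := mul_le_mul_of_nonneg_left hlog2 (by positivity)
  have h2 : ∑ N ∈ A with ¬ N < K₂, (1 / (N : ℝ)) ≤ ρ / 2 * Real.log ((y : ℝ) / x) := by
    have h3 : ∑ N ∈ A with ¬ N < K₂, (1 / (N : ℝ)) ≤
        L * ∑ M ∈ (Finset.Icc (L * x) (L * y)).filter
          (fun M : ℕ => ¬ AS (fun j => h' (e j)) (2 * L ^ 2) M), (1 / (M : ℝ)) := by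
      have h4 : ∑ N ∈ A with ¬ N < K₂, (1 / (N : ℝ)) =
          ∑ N ∈ A with ¬ N < K₂, (L : ℝ) * (1 / ((L * N : ℕ) : ℝ)) := by
        refine Finset.sum_congr rfl fun N hN => ?_
        rw [Finset.mem_filter, hA, Finset.mem_filter, Finset.mem_Icc] at hN
        have hN0 : (0 : ℝ) < N := by
          have : 0 < N := lt_of_lt_of_le hx hN.1.1.1
          exact_mod_cast this
        push_cast
        field_simp
      rw [h4, ← Finset.mul_sum]
      refine mul_le_mul_of_nonneg_left ?_ hL'.le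
      rw [← Finset.sum_image (f := fun M : ℕ => 1 / (M : ℝ)) (g := fun N => L * N)
        (fun N _ N' _ hNN => Nat.eq_of_mul_eq_mul_left hL hNN)]
      refine Finset.sum_le_sum_of_subset_of_nonneg ?_ fun _ _ _ => by positivity
      intro M hM
      obtain ⟨N, hN, rfl⟩ := Finset.mem_image.1 hM
      rw [Finset.mem_filter, hA, Finset.mem_filter, Finset.mem_Icc, not_lt] at hN
      obtain ⟨⟨⟨hN1, hN2⟩, hN3⟩, hN4⟩ := hN
      rw [Finset.mem_filter, Finset.mem_Icc]
      refine ⟨⟨Nat.mul_le_mul_left L hN1, Nat.mul_le_mul_left L hN2⟩, fun hAS => hN3 ?_⟩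
      exact noObs_of_AS β δ b h' hh e L N hL hN4 hAS
    refine h3.trans ((mul_le_mul_of_nonneg_left hbad hL'.le).trans (le_of_eq ?_))
    field_simp
  linarith

end Pool.Agent.H34.GUF
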